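import Mathlib

set_option autoImplicit false

open Filter Topology Set Function MeasureTheory

namespace Pool.Agent.H.MP_906def_an

variable {E : Type}

/-- `comp φ ω n = φ (ω 0) ∘ ⋯ ∘ φ (ω (n-1))`. -/
def comp (φ : E → ℝ → ℝ) (ω : ℕ → E) : ℕ → ℝ → ℝ
  | 0 => id
  | n + 1 => comp φ ω n ∘ φ (ω n)

/-- The limit set of the subsystem indexed by `F`, acting on `X = [0,1]`. -/
def J (φ : E → ℝ → ℝ) (F : Set E) : Set ℝ :=
  {x | ∃ ω : ℕ → E, (∀ i, ω i ∈ F) ∧ ∀ n, x ∈ comp φ ω n '' Icc 0 1}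

/-- The similarities `x ↦ a e + r e * x`. -/
def sim (a r : E → ℝ) (e : E) (x : ℝ) : ℝ := a e + r e * x

def R (r : E → ℝ) (ω : ℕ → E) (n : ℕ) : ℝ := ∏ i ∈ Finset.range n, r (ω i)

def A (a r : E → ℝ) (ω : ℕ → E) (n : ℕ) : ℝ := ∑ i ∈ Finset.range n, R r ω i * a (ω i)

variable {a r : E → ℝ}

theorem comp_eq (ω : ℕ → E) (n : ℕ) (x : ℝ) :
    comp (sim a r) ω n x = A a r ω n + R r ω n * x := by
  induction n generalizing x with
  | zero => simp [comp, A, R]
  | succ n ih =>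
    simp only [comp, Function.comp, ih, sim, A, R, Finset.sum_range_succ, Finset.prod_range_succ]
    ring

theorem R_congr {ω τ : ℕ → E} {n : ℕ} (h : ∀ i < n, ω i = τ i) : R r ω n = R r τ n :=
  Finset.prod_congr rfl (fun i hi => by rw [h i (Finset.mem_range.1 hi)])

theorem A_congr {ω τ : ℕ → E} {n : ℕ} (h : ∀ i < n, ω i = τ i) : A a r ω n = A a r τ n :=
  Finset.sum_congr rfl (fun i hi => by
    have hi' := Finset.mem_range.1 hi
    rw [h i hi', R_congr (fun j hj => h j (hj.trans hi'))])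

structure OK (a r : E → ℝ) : Prop where
  pos : ∀ e, 0 < r e
  half : ∀ e, r e ≤ 1 / 4
  a0 : ∀ e, 0 ≤ a e
  a1 : ∀ e, a e + r e ≤ 1
  sep : ∀ e e', e ≠ e' → a e + r e < a e' ∨ a e' + r e' < a e

theorem R_pos (h : OK a r) (ω : ℕ → E) (n : ℕ) : 0 < R r ω n :=
  Finset.prod_pos (fun i _ => h.pos _)

theorem R_le (h : OK a r) (ω : ℕ → E) (n : ℕ) : R r ω n ≤ (1 / 4) ^ n := by
  have := Finset.prod_le_prod (s := Finset.range n) (f := fun i => r (ω i)) (g := fun _ => 1 / 4)
    (fun i _ => (h.pos _).le) (fun i _ => h.half _)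
  simpa [R] using this

theorem tsum_fun_pow {β : Type} (f : β → ENNReal) (n : ℕ) :
    ∑' w : Fin n → β, ∏ i, f (w i) = (∑' b, f b) ^ n := by
  induction n with
  | zero => simp
  | succ n ih =>
    rw [← (Fin.consEquiv (fun _ : Fin (n + 1) => β)).tsum_eq, ENNReal.tsum_prod', pow_succ', ← ih,
      ← ENNReal.tsum_mul_right]
    refine tsum_congr (fun b => ?_)
    rw [← ENNReal.tsum_mul_left]
    refine tsum_congr (fun w => ?_)
    simp [Fin.prod_univ_succ, Fin.consEquiv]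

theorem J_upper [Countable E] (h : OK a r) (F : Set E) {s : ℝ} (hs : 0 ≤ s)
    (hF : ∑' e : F, ENNReal.ofReal (r e ^ s) ≤ 1) : dimH (J (sim a r) F) ≤ ENNReal.ofReal s := by
  set t : ∀ n : ℕ, (Fin n → F) → Set ℝ := fun n w =>
    {x | ∃ ω : ℕ → E, (∀ i : Fin n, ω i = w i) ∧ x ∈ comp (sim a r) ω n '' Icc 0 1} with ht
  have hd : ∀ n w, Metric.ediam (t n w) ≤ ENNReal.ofReal (∏ i, r (w i)) := by
    intro n w
    refine Metric.ediam_le (fun x hx y hy => ?_)
    obtain ⟨ω, hω, u, hu, rfl⟩ := hx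
    obtain ⟨τ, hτ, v, hv, rfl⟩ := hy
    have e : ∀ i < n, ω i = τ i := fun i hi => (hω ⟨i, hi⟩).trans (hτ ⟨i, hi⟩).symm
    have e2 : R r τ n = ∏ i, r (w i) := by
      rw [R, Finset.prod_range]; exact Finset.prod_congr rfl (fun i _ => by rw [hτ i])
    rw [edist_dist, Real.dist_eq, comp_eq, comp_eq, A_congr e, R_congr e, ← e2]
    refine ENNReal.ofReal_le_ofReal ?_
    have := R_pos h τ n
    rw [abs_le]; constructor <;> nlinarith [hu.1, hu.2, hv.1, hv.2]
  have h1 := Measure.hausdorffMeasure_le_liminf_tsum s (J (sim a r) F) (l := atTop)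
    (fun n : ℕ => ENNReal.ofReal ((1 / 4) ^ n))
    (by rw [← ENNReal.ofReal_zero]
        exact ENNReal.tendsto_ofReal (tendsto_pow_atTop_nhds_zero_of_lt_one (by norm_num)
          (by norm_num))) t
    (Eventually.of_forall (fun n w => (hd n w).trans (ENNReal.ofReal_le_ofReal (by
      have := Finset.prod_le_prod (s := Finset.univ) (f := fun i : Fin n => r (w i))
        (g := fun _ => 1 / 4) (fun i _ => (h.pos _).le) (fun i _ => h.half _)
      simpa using this))))
    (Eventually.of_forall (fun n x hx => by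
      obtain ⟨ω, hω, hx⟩ := hx
      exact mem_iUnion.2 ⟨fun i => ⟨ω i, hω i⟩, ω, fun _ => rfl, hx n⟩))
  have h2 : ∀ n, ∑' w : Fin n → F, Metric.ediam (t n w) ^ s ≤ 1 := by
    intro n
    calc ∑' w : Fin n → F, Metric.ediam (t n w) ^ s
        ≤ ∑' w : Fin n → F, ∏ i, ENNReal.ofReal (r (w i) ^ s) := by
          refine ENNReal.tsum_le_tsum (fun w => ?_)
          refine (ENNReal.rpow_le_rpow (hd n w) hs).trans (le_of_eq ?_)
          rw [ENNReal.ofReal_rpow_of_nonneg (Finset.prod_nonneg (fun i _ => (h.pos _).le)) hs,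
            ← Real.finsetProd_rpow _ _ (fun i _ => (h.pos _).le),
            ENNReal.ofReal_prod_of_nonneg (fun i _ => Real.rpow_nonneg (h.pos _).le _)]
      _ = (∑' e : F, ENNReal.ofReal (r e ^ s)) ^ n :=
          tsum_fun_pow (fun e : F => ENNReal.ofReal (r e ^ s)) n
      _ ≤ 1 := pow_le_one₀ (by positivity) hF
  have h3 : Measure.hausdorffMeasure s (J (sim a r) F) ≤ 1 :=
    h1.trans (liminf_le_of_frequently_le' (Frequently.of_forall h2))
  lift s to NNReal using hs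
  rw [ENNReal.ofReal_coe_nnreal]
  exact dimH_le_of_hausdorffMeasure_ne_top (ne_top_of_le_ne_top ENNReal.one_ne_top h3)

noncomputable def cod (a r : E → ℝ) (ω : ℕ → E) : ℝ := ⨆ n, A a r ω n

theorem A_bd (h : OK a r) (ω : ℕ → E) (n m : ℕ) :
    A a r ω n ≤ A a r ω (n + m) ∧ A a r ω (n + m) + R r ω (n + m) ≤ A a r ω n + R r ω n := by
  induction m with
  | zero => simp
  | succ m ih =>
    have e1 : A a r ω (n + (m + 1)) = A a r ω (n + m) + R r ω (n + m) * a (ω (n + m)) := by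
      rw [← add_assoc, A, Finset.sum_range_succ]; rfl
    have e2 : R r ω (n + (m + 1)) = R r ω (n + m) * r (ω (n + m)) := by
      rw [← add_assoc, R, Finset.prod_range_succ]; rfl
    have := R_pos h ω (n + m)
    rw [e1, e2]
    constructor <;> nlinarith [ih.1, ih.2, h.a0 (ω (n + m)), h.a1 (ω (n + m))]

theorem cod_mem (h : OK a r) (ω : ℕ → E) (n : ℕ) :
    cod a r ω ∈ comp (sim a r) ω n '' Icc 0 1 := by
  have hb : ∀ m, A a r ω m ≤ A a r ω n + R r ω n := by
    intro m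
    rcases le_total m n with hm | hm
    · obtain ⟨k, rfl⟩ := Nat.exists_eq_add_of_le hm
      linarith [(A_bd h ω m k).1, R_pos h ω (m + k)]
    · obtain ⟨k, rfl⟩ := Nat.exists_eq_add_of_le hm
      linarith [(A_bd h ω n k).2, R_pos h ω (n + k)]
  have h1 : A a r ω n ≤ cod a r ω := le_ciSup (f := A a r ω) ⟨_, forall_mem_range.2 hb⟩ n
  have h2 : cod a r ω ≤ A a r ω n + R r ω n := ciSup_le hb
  have hp := R_pos h ω n
  refine ⟨(cod a r ω - A a r ω n) / R r ω n, ⟨div_nonneg (by linarith) hp.le,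
    (div_le_one hp).2 (by linarith)⟩, ?_⟩
  rw [comp_eq]; field_simp; ring

theorem gap (h : OK a r) (F : Finset E) : ∃ δ : ℝ, 0 < δ ∧ ∀ e ∈ F, ∀ e' ∈ F, e ≠ e' →
    ∀ x ∈ Icc (0 : ℝ) 1, ∀ y ∈ Icc (0 : ℝ) 1, δ ≤ |sim a r e x - sim a r e' y| := by
  have : ∀ᶠ δ in 𝓝[>] (0 : ℝ), ∀ e ∈ F, ∀ e' ∈ F, e ≠ e' →
      ∀ x ∈ Icc (0 : ℝ) 1, ∀ y ∈ Icc (0 : ℝ) 1, δ ≤ |sim a r e x - sim a r e' y| := by
    rw [Filter.eventually_all_finset]
    intro e _
    rw [Filter.eventually_all_finset]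
    intro e' _
    by_cases hne : e = e'
    · exact Eventually.of_forall (fun _ h' => absurd hne h')
    have p1 := h.pos e
    have p2 := h.pos e'
    rcases h.sep e e' hne with hs | hs
    · filter_upwards [Ioo_mem_nhdsGT (sub_pos.2 hs)] with δ hδ _ x hx y hy
      refine le_trans ?_ (neg_le_abs _)
      simp only [sim]; nlinarith [hδ.2, hx.2, hy.1]
    · filter_upwards [Ioo_mem_nhdsGT (sub_pos.2 hs)] with δ hδ _ x hx y hy
      refine le_trans ?_ (le_abs_self _)
      simp only [sim]; nlinarith [hδ.2, hx.1, hy.2]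
  obtain ⟨δ, h1, h2⟩ := (this.and self_mem_nhdsWithin).exists
  exact ⟨δ, h2, h1⟩

theorem J_lower_fin (h : OK a r) (F : Finset E) {s : ℝ} (hs : 0 < s)
    (hF : 1 ≤ ∑ e ∈ F, r e ^ s) : ENNReal.ofReal s ≤ dimH (J (sim a r) F) := by
  classical
  obtain ⟨δ, hδ, hgap⟩ := gap h F
  set Z := ∑ e ∈ F, r e ^ s with hZ
  have hZ0 : 0 < Z := by linarith
  have hrs : ∀ e, 0 ≤ r e ^ s := fun e => Real.rpow_nonneg (h.pos e).le _
  let _ : MeasurableSpace F := ⊤
  set p : PMF F := PMF.ofFintype (fun e => ENNReal.ofReal (r e ^ s / Z)) (by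
    rw [← ENNReal.ofReal_sum_of_nonneg (fun e _ => div_nonneg (hrs _) hZ0.le), ← Finset.sum_div,
      Finset.sum_coe_sort F (fun e => r e ^ s), ← hZ, div_self hZ0.ne', ENNReal.ofReal_one]) with hp
  set μ : Measure (ℕ → F) := Measure.infinitePi (fun _ : ℕ => p.toMeasure) with hμ
  have hcyl : ∀ (τ : ℕ → F) (k : ℕ), μ {ω | ∀ i < k, ω i = τ i} ≤
      ENNReal.ofReal (R r (fun i => τ i) k ^ s) := by
    intro τ k
    have : {ω : ℕ → F | ∀ i < k, ω i = τ i} = Set.pi (Finset.range k) (fun i => {τ i}) := by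
      ext ω; simp
    rw [this, hμ, Measure.infinitePi_pi _ (t := fun i => {τ i}) (fun i _ => trivial), R,
      ← Real.finsetProd_rpow _ _ (fun i _ => (h.pos _).le),
      ENNReal.ofReal_prod_of_nonneg (fun i _ => hrs _)]
    refine Finset.prod_le_prod' (fun i _ => ?_)
    rw [PMF.toMeasure_apply_singleton p (τ i) MeasurableSpace.measurableSet_top, hp, PMF.ofFintype_apply]
    exact ENNReal.ofReal_le_ofReal (div_le_self (hrs _) hF)
  set π : (ℕ → F) → ℝ := fun ω => cod a r (fun i => ω i) with hπ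
  have key : ∀ U : Set ℝ, ENNReal.ofReal (δ ^ s) * μ (π ⁻¹' U) ≤ Metric.ediam U ^ s := by
    intro U
    rcases (π ⁻¹' U).eq_empty_or_nonempty with he | ⟨τ, hτ⟩
    · rw [he]; simp
    by_cases hall : ∃ k, ∃ ω ∈ π ⁻¹' U, ω k ≠ τ k
    · obtain ⟨ω, hω, hne⟩ := Nat.find_spec hall
      set k := Nat.find hall with hk
      have hsub : π ⁻¹' U ⊆ {ω | ∀ i < k, ω i = τ i} := by
        intro ω' hω' i hi
        by_contra hc
        exact Nat.find_min hall hi ⟨ω', hω', hc⟩
      have e : ∀ i < k, (ω i : E) = τ i := fun i hi => by rw [hsub hω i hi]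
      obtain ⟨x, hx, ex⟩ := cod_mem h (fun i => (ω i : E)) (k + 1)
      obtain ⟨y, hy, ey⟩ := cod_mem h (fun i => (τ i : E)) (k + 1)
      have hg := hgap _ (ω k).2 _ (τ k).2 (fun hc => hne (Subtype.ext hc)) x hx y hy
      have hR := R_pos h (fun i => (τ i : E)) k
      have hdist : δ * R r (fun i => (τ i : E)) k ≤ dist (π ω) (π τ) := by
        simp only [hπ]
        rw [← ex, ← ey, Real.dist_eq]
        simp only [comp, Function.comp]
        rw [comp_eq, comp_eq, A_congr e, R_congr e, add_sub_add_left_eq_sub, ← mul_sub, abs_mul,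
          abs_of_pos hR, mul_comm]
        exact mul_le_mul_of_nonneg_left hg hR.le
      calc ENNReal.ofReal (δ ^ s) * μ (π ⁻¹' U)
          ≤ ENNReal.ofReal (δ ^ s) * ENNReal.ofReal (R r (fun i => (τ i : E)) k ^ s) :=
            mul_le_mul_right ((measure_mono hsub).trans (hcyl τ k)) _
        _ = ENNReal.ofReal (δ * R r (fun i => (τ i : E)) k) ^ s := by
            rw [← ENNReal.ofReal_mul (Real.rpow_nonneg hδ.le _), ← Real.mul_rpow hδ.le hR.le,
              ENNReal.ofReal_rpow_of_nonneg (by positivity) hs.le]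
        _ ≤ _ := by
            refine ENNReal.rpow_le_rpow ?_ hs.le
            refine le_trans ?_ (Metric.edist_le_ediam_of_mem hω hτ)
            rw [edist_dist]; exact ENNReal.ofReal_le_ofReal hdist
    · push Not at hall
      have h0 : μ (π ⁻¹' U) = 0 := by
        have hl : Tendsto (fun k : ℕ => ENNReal.ofReal (((1 / 4 : ℝ) ^ s) ^ k)) atTop (𝓝 0) := by
          rw [← ENNReal.ofReal_zero]
          exact ENNReal.tendsto_ofReal (tendsto_pow_atTop_nhds_zero_of_lt_one (by positivity)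
            (Real.rpow_lt_one (by norm_num) (by norm_num) hs))
        refine le_antisymm (ge_of_tendsto hl (Eventually.of_forall (fun k => ?_))) (by positivity)
        have hsub : π ⁻¹' U ⊆ {ω | ∀ i < k, ω i = τ i} := fun ω hω i _ => hall i ω hω
        refine (measure_mono hsub).trans ((hcyl τ k).trans ?_)
        refine ENNReal.ofReal_le_ofReal ?_
        rw [← Real.rpow_natCast, ← Real.rpow_mul (by norm_num), mul_comm,
          Real.rpow_mul (by norm_num), Real.rpow_natCast]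
        exact Real.rpow_le_rpow (R_pos h _ _).le (R_le h _ _) hs.le
      rw [h0]; simp
  have hle := OuterMeasure.le_mkMetric (fun d => d ^ s)
    (ENNReal.ofReal (δ ^ s) • OuterMeasure.map π μ.toOuterMeasure) 1 one_pos (fun U _ => key U)
  have h2 := hle (J (sim a r) F)
  rw [OuterMeasure.coe_mkMetric] at h2
  have h3 : π ⁻¹' (J (sim a r) F) = univ :=
    eq_univ_of_forall (fun ω => ⟨fun i => ω i, fun i => (ω i).2, cod_mem h _⟩)
  have h4 : (ENNReal.ofReal (δ ^ s) • OuterMeasure.map π μ.toOuterMeasure) (J (sim a r) F) =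
      ENNReal.ofReal (δ ^ s) := by
    rw [smul_apply, OuterMeasure.map_apply, h3]
    simp
  rw [h4] at h2
  have h5 : Measure.hausdorffMeasure s (J (sim a r) F) ≠ 0 :=
    ne_of_gt (lt_of_lt_of_le (ENNReal.ofReal_pos.2 (Real.rpow_pos_of_pos hδ _)) h2)
  lift s to NNReal using hs.le
  rw [ENNReal.ofReal_coe_nnreal]
  exact le_dimH_of_hausdorffMeasure_ne_zero h5

theorem J_mono (φ : E → ℝ → ℝ) {F G : Set E} (h : F ⊆ G) : J φ F ⊆ J φ G :=
  fun _ ⟨ω, h1, h2⟩ => ⟨ω, fun i => h (h1 i), h2⟩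

theorem J_lower (h : OK a r) (F : Set E) {s : ℝ} (hs : 0 < s)
    (hF : 1 < ∑' e : F, ENNReal.ofReal (r e ^ s)) : ENNReal.ofReal s ≤ dimH (J (sim a r) F) := by
  classical
  rw [ENNReal.tsum_eq_iSup_sum, lt_iSup_iff] at hF
  obtain ⟨G, hG⟩ := hF
  rw [← ENNReal.ofReal_sum_of_nonneg (fun e _ => Real.rpow_nonneg (h.pos _).le _),
    ENNReal.one_lt_ofReal] at hG
  have := J_lower_fin h (G.map (Embedding.subtype _)) hs (by rw [Finset.sum_map]; exact hG.le)
  refine this.trans (dimH_mono (J_mono _ (fun e he => ?_)))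
  simp only [Finset.coe_map, mem_image] at he
  obtain ⟨e', _, rfl⟩ := he
  exact e'.2

end Pool.Agent.H.MP_906def_an
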