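import Mathlib
import Pool.Agent.H.MP_906def_an.A

set_option autoImplicit false

open Filter Topology Set Function MeasureTheory

namespace Pool.Agent.H.MP_906def_an

def n (k : ℕ) : ℕ := (k + 3).factorial
def N (k : ℕ) : ℕ := 2 ^ (n k + 1)
abbrev EE : Type := Σ k : ℕ, Fin (N k)
noncomputable def rr (e : EE) : ℝ := (1 / 4) ^ n e.1
noncomputable def aa (e : EE) : ℝ := (1 / 2) ^ (e.1 + 1) + 2 * (e.2.val : ℝ) * (1 / 4) ^ n e.1

theorem n_ge (k : ℕ) : k + 3 ≤ n k := Nat.self_le_factorial _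

theorem n_add (k m : ℕ) : (m + 1) * n k ≤ n (m + k) := by
  induction m with
  | zero => simp
  | succ m ih =>
    have : n (m + 1 + k) = (m + k + 4) * n (m + k) := by
      simp only [n]; rw [show m + 1 + k + 3 = (m + k + 3) + 1 by ring, Nat.factorial_succ]
    rw [this]; nlinarith [Nat.zero_le (n k), Nat.zero_le (n (m + k)), Nat.zero_le (m * n (m + k)), Nat.zero_le (k * n (m + k))]

theorem aa_lt (e : EE) : aa e + rr e < (1 / 2) ^ e.1 := by
  obtain ⟨k, j⟩ := e
  simp only [aa, rr]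
  have h1 : (j.val : ℝ) + 1 ≤ 2 ^ (n k + 1) := by exact_mod_cast j.2
  have h2 : ((1 / 4 : ℝ)) ^ n k = (1 / 2) ^ n k * (1 / 2) ^ n k := by rw [← mul_pow]; norm_num
  have h3 : (2 : ℝ) ^ (n k + 1) * (1 / 2) ^ n k = 2 := by
    rw [pow_succ, mul_right_comm, ← mul_pow]; norm_num
  have h4 : ((1 / 2 : ℝ)) ^ n k ≤ (1 / 2) ^ (k + 3) :=
    pow_le_pow_of_le_one (by norm_num) (by norm_num) (n_ge k)
  have h5 : (0 : ℝ) < (1 / 2) ^ n k := by positivity
  have h6 : ((j.val : ℝ) + 1) * (1 / 2) ^ n k ≤ 2 := by nlinarith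
  have h7 : ((1 / 2 : ℝ)) ^ (k + 3) = (1 / 2) ^ k / 8 := by rw [pow_add]; norm_num; ring
  have h8 : ((1 / 2 : ℝ)) ^ (k + 1) = (1 / 2) ^ k / 2 := by rw [pow_add]; norm_num; ring
  rw [h2, h8]
  nlinarith [mul_pos h5 h5, mul_le_mul_of_nonneg_right h6 h5.le]

theorem aa_ge (e : EE) : (1 / 2) ^ (e.1 + 1) ≤ aa e := by
  simp only [aa]
  have : (0 : ℝ) ≤ 2 * (e.2.val : ℝ) * (1 / 4) ^ n e.1 := by positivity
  linarith

theorem ok : OK aa rr where
  pos e := by simp only [rr]; positivity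
  half e := by
    have := pow_le_pow_of_le_one (show (0 : ℝ) ≤ 1 / 4 by norm_num) (by norm_num)
      (show 1 ≤ n e.1 by have := n_ge e.1; omega)
    simpa [rr] using this
  a0 e := le_trans (by positivity) (aa_ge e)
  a1 e := (aa_lt e).le.trans (pow_le_one₀ (by norm_num) (by norm_num))
  sep := by
    have A : ∀ e e' : EE, e.1 < e'.1 → aa e' + rr e' < aa e := fun e e' h =>
      (aa_lt e').trans_le ((pow_le_pow_of_le_one (by norm_num) (by norm_num) h).trans (aa_ge e))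
    have B : ∀ (k : ℕ) (j j' : Fin (N k)), j < j' → aa ⟨k, j⟩ + rr ⟨k, j⟩ < aa ⟨k, j'⟩ := by
      intro k j j' h
      simp only [aa, rr]
      have h1 : (j.val : ℝ) + 1 ≤ j'.val := by exact_mod_cast h
      have h5 : (0 : ℝ) < (1 / 4) ^ n k := by positivity
      nlinarith
    rintro ⟨k, j⟩ ⟨k', j'⟩ hne
    rcases lt_trichotomy k k' with h | h | h
    · exact Or.inr (A _ _ h)
    · subst h
      have : j ≠ j' := fun hc => hne (by rw [hc])
      rcases lt_or_gt_of_ne this with h | h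
      · exact Or.inl (B k j j' h)
      · exact Or.inr (B k j' j h)
    · exact Or.inl (A ⟨k', j'⟩ ⟨k, j⟩ h)

open Classical in
noncomputable def cnt (F : Set EE) (k : ℕ) : ℕ :=
  (Finset.univ.filter (fun j : Fin (N k) => (⟨k, j⟩ : EE) ∈ F)).card

theorem cnt_le (F : Set EE) (k : ℕ) : cnt F k ≤ N k := by
  classical
  exact (Finset.card_filter_le _ _).trans (by simp)

noncomputable def w (k : ℕ) (s : ℝ) : ℝ := (2 : ℝ) ^ (-(2 * (n k : ℝ) * s))

theorem w_pos (k : ℕ) (s : ℝ) : 0 < w k s := Real.rpow_pos_of_pos two_pos _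

theorem rr_pow (e : EE) (s : ℝ) : rr e ^ s = w e.1 s := by
  rw [rr, w, show (1 / 4 : ℝ) = 2 ^ (-2 : ℝ) by
    rw [Real.rpow_neg (by norm_num)]; norm_num, ← Real.rpow_natCast, ← Real.rpow_mul (by norm_num),
    ← Real.rpow_mul (by norm_num)]
  congr 1; ring

noncomputable def sg (F : Set EE) (s : ℝ) : ENNReal := ∑' k, ENNReal.ofReal (cnt F k * w k s)

theorem sg_eq (F : Set EE) (s : ℝ) : ∑' e : F, ENNReal.ofReal (rr e ^ s) = sg F s := by
  classical
  rw [tsum_subtype F (fun e => ENNReal.ofReal (rr e ^ s)), ENNReal.tsum_sigma', sg]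
  refine tsum_congr (fun k => ?_)
  rw [tsum_fintype]
  simp only [indicator_apply, rr_pow]
  rw [← Finset.sum_filter, Finset.sum_const, nsmul_eq_mul, ENNReal.ofReal_mul (by positivity),
    ENNReal.ofReal_natCast, cnt]

noncomputable def D (F : Set EE) : ℝ := (dimH (J (sim aa rr) F)).toReal

theorem dim_ne (F : Set EE) : dimH (J (sim aa rr) F) ≠ ⊤ :=
  ne_top_of_le_ne_top ENNReal.one_ne_top ((dimH_mono (subset_univ _)).trans Real.dimH_univ.le)

theorem D_up {F : Set EE} {s : ℝ} (hs : 0 ≤ s) (h : sg F s ≤ 1) : D F ≤ s :=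
  ENNReal.toReal_le_of_le_ofReal hs (J_upper ok F hs (by rwa [sg_eq]))

theorem D_low {F : Set EE} {s : ℝ} (hs : 0 < s) (h : 1 < sg F s) : s ≤ D F :=
  (ENNReal.ofReal_le_iff_le_toReal (dim_ne F)).1 (J_lower ok F hs (by rwa [sg_eq]))

theorem cnt_init (m : ℕ → ℕ) (k : ℕ) : cnt {e | e.2.val < m e.1} k = min (N k) (m k) := by
  rw [← Fin.card_filter_val_lt, cnt]
  congr 1
  ext j; simp

theorem N_cast (k : ℕ) : (N k : ℝ) = (2 : ℝ) ^ ((n k : ℝ) + 1) := by
  rw [N, show (n k : ℝ) + 1 = ((n k + 1 : ℕ) : ℝ) by push_cast; ring, Real.rpow_natCast]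
  push_cast; ring

theorem one_lt_sg {F : Set EE} {s : ℝ} (k : ℕ) (h : 1 < cnt F k * w k s) : 1 < sg F s :=
  (ENNReal.one_lt_ofReal.2 h).trans_le
    (ENNReal.le_tsum (f := fun k => ENNReal.ofReal (cnt F k * w k s)) k)

theorem D_int {x : ℝ} (h0 : 0 < x) (h1 : x ≤ 1 / 2) : ∃ F, D F = x := by
  set m : ℕ → ℕ := fun k => ⌊(2 : ℝ) ^ (2 * (n k : ℝ) * x - (k + 1))⌋₊ with hm
  have hmle : ∀ k, (m k : ℝ) ≤ (2 : ℝ) ^ (2 * (n k : ℝ) * x - (k + 1)) := fun k =>
    Nat.floor_le (by positivity)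
  have hc : ∀ k, cnt {e | e.2.val < m e.1} k = m k := by
    intro k
    rw [cnt_init, min_eq_right]
    have : (m k : ℝ) ≤ N k := by
      rw [N_cast]
      refine (hmle k).trans (Real.rpow_le_rpow_of_exponent_le one_le_two ?_)
      have : (0 : ℝ) ≤ n k := by positivity
      have : (0 : ℝ) ≤ k := by positivity
      nlinarith
    exact_mod_cast this
  refine ⟨{e | e.2.val < m e.1}, le_antisymm (D_up h0.le ?_) ?_⟩
  · have hs := hasSum_geometric_two' (1 : ℝ)
    rw [← ENNReal.ofReal_one, ← hs.tsum_eq,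
      ENNReal.ofReal_tsum_of_nonneg (fun k => by positivity) hs.summable]
    refine ENNReal.tsum_le_tsum (fun k => ENNReal.ofReal_le_ofReal ?_)
    rw [hc]
    refine (mul_le_mul_of_nonneg_right (hmle k) (w_pos k x).le).trans (le_of_eq ?_)
    rw [w, ← Real.rpow_add two_pos, show 2 * (n k : ℝ) * x - (k + 1) + -(2 * (n k : ℝ) * x) =
      -((k + 1 : ℕ) : ℝ) by push_cast; ring, Real.rpow_neg (by norm_num), Real.rpow_natCast,
      pow_succ]
    field_simp
  · refine le_of_forall_lt_imp_le_of_dense (fun s hs => ?_)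
    rcases le_or_gt s 0 with h | h
    · exact h.trans ENNReal.toReal_nonneg
    obtain ⟨k, hk⟩ := exists_nat_gt (1 / (2 * (x - s)))
    have hxs : 0 < x - s := by linarith
    rw [div_lt_iff₀ (by positivity)] at hk
    refine D_low h (one_lt_sg k ?_)
    rw [hc]
    have e1 : (n k : ℝ) = (k + 3) * ((k + 2).factorial : ℝ) := by
      rw [n, show k + 3 = (k + 2) + 1 by ring, Nat.factorial_succ]; push_cast; ring
    have e2 : (k : ℝ) + 2 ≤ ((k + 2).factorial : ℝ) := by exact_mod_cast Nat.self_le_factorial (k + 2)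
    have hk0 : (0 : ℝ) ≤ k := by positivity
    have e3 : 1 < 2 * (n k : ℝ) * x - (k + 1) + -(2 * (n k : ℝ) * s) := by
      have : 1 < (k + 3) * (2 * (x - s)) := by nlinarith
      rw [e1]; nlinarith
    have e4 : (2 : ℝ) < (2 : ℝ) ^ (2 * (n k : ℝ) * x - (k + 1)) * w k s := by
      rw [w, ← Real.rpow_add two_pos]
      have := Real.rpow_lt_rpow_of_exponent_lt one_lt_two e3
      rwa [Real.rpow_one] at this
    have e5 : w k s ≤ 1 := Real.rpow_le_one_of_one_le_of_nonpos one_le_two (by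
      have : (0 : ℝ) ≤ 2 * (n k : ℝ) * s := by positivity
      linarith)
    have e6 : (2 : ℝ) ^ (2 * (n k : ℝ) * x - (k + 1)) < m k + 1 := Nat.lt_floor_add_one _
    nlinarith [w_pos k s]

theorem D_near {ε : ℝ} (hε : 0 < ε) : ∃ F, 1 / 2 < D F ∧ D F < 1 / 2 + ε := by
  obtain ⟨k, hk⟩ := exists_nat_gt (1 / ε)
  rw [div_lt_iff₀ hε] at hk
  have hn : (k : ℝ) + 3 ≤ n k := by exact_mod_cast n_ge k
  have hk0 : (0 : ℝ) ≤ k := by positivity
  have hn0 : (0 : ℝ) < n k := by linarith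
  have hc : ∀ i, cnt {e | e.2.val < (fun i => if i = k then N k else 0) e.1} i =
      if i = k then N k else 0 := by
    intro i
    rw [cnt_init (fun i => if i = k then N k else 0)]
    split_ifs with h
    · rw [h, min_self]
    · simp
  refine ⟨{e | e.2.val < (fun i => if i = k then N k else 0) e.1}, ?_, ?_⟩
  · refine lt_of_lt_of_le (show 1 / 2 < 1 / 2 + 1 / (4 * (n k : ℝ)) by
      have : 0 < 1 / (4 * (n k : ℝ)) := by positivity
      linarith) (D_low (by positivity) (one_lt_sg k ?_))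
    rw [hc, if_pos rfl, N_cast, w, ← Real.rpow_add two_pos]
    refine Real.one_lt_rpow one_lt_two ?_
    have : 2 * (n k : ℝ) * (1 / 2 + 1 / (4 * (n k : ℝ))) = n k + 1 / 2 := by field_simp; ring
    rw [this]; linarith
  · refine lt_of_le_of_lt (D_up (s := 1 / 2 + 1 / (2 * (n k : ℝ))) (by positivity) ?_) ?_
    · rw [sg, tsum_eq_single k (fun i hi => by rw [hc, if_neg hi]; simp), hc, if_pos rfl, N_cast, w,
        ← Real.rpow_add two_pos]
      have : 2 * (n k : ℝ) * (1 / 2 + 1 / (2 * (n k : ℝ))) = n k + 1 := by field_simp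
      rw [this]; simp
    · have : 1 / (2 * (n k : ℝ)) < ε := by rw [div_lt_iff₀ (by positivity)]; nlinarith
      linarith

end Pool.Agent.H.MP_906def_an
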